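import Pool.Agent.H32.LU.YStmts

/-!
Project LU, part Y, module LAM: the subgroups `{g ∈ N | M divides h g}`.
-/

set_option autoImplicit false

open scoped BigOperators Topology
open Filter Pool.H3.L2

noncomputable section

namespace Pool.LU.YP

section

variable {V : Type} [Fintype V] [DecidableEq V] {adj : V → V → Prop}
  {c : Colr V adj} {W : Type} [Group W] {R : RA V adj W} {h : W → ℤ}

theorem lam_inv (hh : IsHt c R h) (g : W) (hg : g ∈ R.χ.ker) : h g⁻¹ = - h g := by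
  have h1 := hh.mul g hg g⁻¹
  rw [mul_inv_cancel, hh.one] at h1
  linarith

theorem lam_pow (hh : IsHt c R h) (g : W) (hg : g ∈ R.χ.ker) (n : ℕ) :
    h (g ^ n) = n * h g := by
  induction n with
  | zero => rw [pow_zero, hh.one]; simp
  | succ n ih =>
    rw [pow_succ', hh.mul g hg, ih]
    push_cast
    ring

/-- The subgroup `{g ∈ N | M divides h g}`. -/
def lamS (hh : IsHt c R h) (N : Subgroup W) (h1 : N ≤ R.χ.ker) (M : ℕ) : Subgroup W where
  carrier := {g | g ∈ N ∧ (M : ℤ) ∣ h g}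
  mul_mem' := by
    rintro a b ⟨ha, ha'⟩ ⟨hb, hb'⟩
    refine ⟨N.mul_mem ha hb, ?_⟩
    rw [hh.mul a (h1 ha)]
    exact dvd_add ha' hb'
  one_mem' := ⟨N.one_mem, by rw [hh.one]; exact dvd_zero _⟩
  inv_mem' := by
    rintro a ⟨ha, ha'⟩
    refine ⟨N.inv_mem ha, ?_⟩
    rw [lam_inv hh a (h1 ha)]
    exact (dvd_neg).2 ha'

theorem lam_mem (hh : IsHt c R h) (N : Subgroup W) (h1 : N ≤ R.χ.ker) (M : ℕ) (g : W) :
    g ∈ lamS hh N h1 M ↔ g ∈ N ∧ (M : ℤ) ∣ h g := Iff.rfl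

/-- The map of the cosets. -/
def lamF (hh : IsHt c R h) (N : Subgroup W) (h1 : N ≤ R.χ.ker) (M : ℕ) :
    Quotient (QuotientGroup.rightRel (lamS hh N h1 M)) →
      Quotient (QuotientGroup.rightRel N) × ZMod M :=
  Quotient.lift (fun w => (Quotient.mk _ w, ((h w : ℤ) : ZMod M))) (by
    intro a b hab
    have hab' : b * a⁻¹ ∈ lamS hh N h1 M := QuotientGroup.rightRel_apply.1 hab
    obtain ⟨h2, h3⟩ := (lam_mem hh N h1 M _).1 hab'
    refine Prod.ext ?_ ?_
    · exact Quotient.sound (QuotientGroup.rightRel_apply.2 h2)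
    · show ((h a : ℤ) : ZMod M) = ((h b : ℤ) : ZMod M)
      have h4 : h b = h (b * a⁻¹) + h a := by
        rw [← hh.mul _ (h1 h2), inv_mul_cancel_right]
      rw [h4, Int.cast_add, (ZMod.intCast_zmod_eq_zero_iff_dvd _ _).2 h3, zero_add])

theorem lamF_mk (hh : IsHt c R h) (N : Subgroup W) (h1 : N ≤ R.χ.ker) (M : ℕ) (w : W) :
    lamF hh N h1 M (Quotient.mk _ w) = (Quotient.mk _ w, ((h w : ℤ) : ZMod M)) := rfl

theorem lamF_inj (hh : IsHt c R h) (N : Subgroup W) (h1 : N ≤ R.χ.ker) (M : ℕ) :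
    Function.Injective (lamF hh N h1 M) := by
  rintro ⟨a⟩ ⟨b⟩ hab
  have hab' : ((Quotient.mk (QuotientGroup.rightRel N) a, ((h a : ℤ) : ZMod M)) :
      Quotient (QuotientGroup.rightRel N) × ZMod M) =
      (Quotient.mk (QuotientGroup.rightRel N) b, ((h b : ℤ) : ZMod M)) := hab
  rw [Prod.mk.injEq] at hab'
  obtain ⟨h2, h3⟩ := hab'
  have h2' : b * a⁻¹ ∈ N := QuotientGroup.rightRel_apply.1 (Quotient.exact h2)
  refine Quotient.sound (QuotientGroup.rightRel_apply.2 ⟨h2', ?_⟩)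
  have h4 : h b = h (b * a⁻¹) + h a := by
    rw [← hh.mul _ (h1 h2'), inv_mul_cancel_right]
  rw [← ZMod.intCast_zmod_eq_zero_iff_dvd]
  rw [h4, Int.cast_add] at h3
  have h5 : ((h a : ℤ) : ZMod M) + 0 = ((h a : ℤ) : ZMod M) + ((h (b * a⁻¹) : ℤ) : ZMod M) := by
    rw [add_zero, add_comm]
    exact h3
  exact (add_left_cancel h5).symm

theorem lamF_surj (hh : IsHt c R h) (N : Subgroup W) (h1 : N ≤ R.χ.ker) (M : ℕ) [NeZero M]
    (hg : ∃ g ∈ N, IsCoprime (h g) (M : ℤ)) : Function.Surjective (lamF hh N h1 M) := by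
  rintro ⟨⟨w⟩, j⟩
  obtain ⟨g, hgN, a, b, hab⟩ := hg
  -- the exponent
  set k : ZMod M := (j - ((h w : ℤ) : ZMod M)) * (a : ZMod M) with hk
  refine ⟨Quotient.mk _ (g ^ k.val * w), ?_⟩
  rw [lamF_mk]
  refine Prod.ext ?_ ?_
  · refine Quotient.sound (QuotientGroup.rightRel_apply.2 ?_)
    have : w * (g ^ k.val * w)⁻¹ = (g ^ k.val)⁻¹ := by group
    rw [this]
    exact N.inv_mem (N.pow_mem hgN _)
  · show ((h (g ^ k.val * w) : ℤ) : ZMod M) = j
    rw [hh.mul _ (h1 (N.pow_mem hgN _)), lam_pow hh g (h1 hgN)]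
    have h3 : (a : ZMod M) * ((h g : ℤ) : ZMod M) = 1 := by
      have := congrArg (fun t : ℤ => (t : ZMod M)) hab
      simpa using this
    push_cast
    rw [ZMod.natCast_zmod_val, hk, mul_assoc, h3]
    ring

end

theorem lam : LAMStmt := by
  intro V _ _ adj c _ W _ R h hh N h1 h2 M _ hg
  have h3 : lamS hh N h1 M ≤ R.χ.ker := fun g hg => h1 hg.1
  have hbij : Function.Bijective (lamF hh N h1 M) :=
    ⟨lamF_inj hh N h1 M, lamF_surj hh N h1 M hg⟩
  have hc : Nat.card (Quotient (QuotientGroup.rightRel (lamS hh N h1 M))) =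
      Nat.card (Quotient (QuotientGroup.rightRel N)) * M := by
    rw [Nat.card_congr (Equiv.ofBijective _ hbij), Nat.card_prod, Nat.card_zmod]
  have hidx : (lamS hh N h1 M).index = N.index * M := by
    have e1 := Nat.card_congr (QuotientGroup.quotientRightRelEquivQuotientLeftRel
      (lamS hh N h1 M))
    have e2 := Nat.card_congr (QuotientGroup.quotientRightRelEquivQuotientLeftRel N)
    rw [e1, e2] at hc
    exact hc
  have h4 : (lamS hh N h1 M).FiniteIndex := ⟨by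
    rw [hidx]
    exact Nat.mul_ne_zero h2.index_ne_zero (NeZero.ne M)⟩
  refine ⟨lamS hh N h1 M, h3, h4, lam_mem hh N h1 M, hidx, Equiv.ofBijective _ hbij, ?_⟩
  rintro v ⟨w⟩
  show lamF hh N h1 M (Quotient.mk _ (w * R.s v)) =
    (Quotient.mk _ (w * R.s v), ((h w : ℤ) : ZMod M) +
      (eps c (cosX R N h1 h2) (Quotient.mk _ w) v : ZMod M))
  rw [lamF_mk, hh.step]
  refine Prod.ext rfl ?_
  have hw : ∀ t : ℤ, eps c (cosX R N h1 h2) (Quotient.mk _ w) v = t →
      (((h w + t : ℤ)) : ZMod M) = ((h w : ℤ) : ZMod M) +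
        (eps c (cosX R N h1 h2) (Quotient.mk _ w) v : ZMod M) := by
    intro t ht
    rw [ht, Int.cast_add]
  refine hw _ ?_
  unfold eps
  by_cases h5 : c.sy v * parW c R (c.col v) w = -1
  · rw [if_pos h5]
    exact if_pos h5
  · rw [if_neg h5]
    exact if_neg h5

end Pool.LU.YP
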