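import Pool.Agent.H28.LU.Y_PGDData

/-!
Project LU, part Y, module PGD: the polytope is simple, compact, with flag nerve, and its graph is
`adjY`.
-/

set_option autoImplicit false

open scoped BigOperators
open Pool.H3.L2

namespace Pool.LU.YP

theorem pgd_dot_eq (n : ℕ) : ∀ r s : List ℤ, r.length ≤ n →
    pgd_dot r s = ∑ i ∈ Finset.range n, r.getD i 0 * s.getD i 0 := by
  induction n with
  | zero =>
    intro r s h
    cases r with
    | nil => simp [pgd_dot]
    | cons a r => simp at h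
  | succ n ih =>
    intro r s h
    cases r with
    | nil => simp [pgd_dot]
    | cons a r =>
      cases s with
      | nil => simp [pgd_dot]
      | cons b s =>
        rw [Finset.sum_range_succ']
        have h1 : r.length ≤ n := by simpa using h
        simp [pgd_dot, ih r s h1, add_comm]

theorem pgd_chk_spec : ∀ (l : List ℤ) (m : ℕ), pgd_chk m l = true → ∀ w, w < l.length →
    (m.testBit w = true → l.getD w 0 = 0) ∧ (m.testBit w = false → 0 < l.getD w 0) := by
  intro l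
  induction l with
  | nil => intro m _ w hw; simp at hw
  | cons t ts ih =>
    intro m h w hw
    rw [pgd_chk, Bool.and_eq_true] at h
    obtain ⟨h1, h2⟩ := h
    cases w with
    | zero =>
      have h3 : m.testBit 0 = (m % 2 == 1) := by
        rw [Nat.testBit_zero]
        rfl
      rw [h3]
      by_cases h4 : (m % 2 == 1) = true
      · rw [if_pos h4] at h1
        refine ⟨fun _ => ?_, fun h5 => ?_⟩
        · simpa using h1
        · rw [h4] at h5
          exact absurd h5 (by decide)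
      · rw [if_neg h4] at h1
        refine ⟨fun h5 => absurd h5 h4, fun _ => ?_⟩
        simpa using h1
    | succ w =>
      have h3 : m.testBit (w + 1) = (m / 2).testBit w := by
        rw [Nat.testBit_succ]
      rw [h3]
      have h4 := ih (m / 2) h2 w (by simpa using hw)
      simpa using h4

theorem pgd_nrm_len : nrmL.length = 36 := by decide

theorem pgd_row_len : ∀ r ∈ nrmL, r.length ≤ 6 := by decide

/-- the affine forms in coordinates -/
theorem pgd_l (v : Fin 36) (x : Fin 5 → ℝ) :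
    polY.l v x = -(∑ i : Fin 5, (pgd_nv v.1 i.1 : ℝ) * x i) + (pgd_nv v.1 5 : ℝ) := by
  unfold SPoly.l
  show (∑ i : Fin 5, (-(((nrmL.getD v.1 []).getD i.1 0 : ℤ) : ℝ)) • LinearMap.proj i) x +
    (((nrmL.getD v.1 []).getD 5 0 : ℤ) : ℝ) = _
  rw [LinearMap.sum_apply, ← Finset.sum_neg_distrib]
  congr 1
  refine Finset.sum_congr rfl fun i _ => ?_
  rw [LinearMap.smul_apply, LinearMap.proj_apply, smul_eq_mul, neg_mul]
  rfl

/-- the value of a combination -/
theorem pgd_cmb_val (c : List (ℕ × ℤ)) (x : Fin 5 → ℝ) :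
    -(∑ i : Fin 5, (pgd_cmb c i.1 : ℝ) * x i) + (pgd_cmb c 5 : ℝ) =
    (c.map fun p => (p.2 : ℝ) *
      (-(∑ i : Fin 5, (pgd_nv p.1 i.1 : ℝ) * x i) + (pgd_nv p.1 5 : ℝ))).sum := by
  induction c with
  | nil => simp [pgd_cmb]
  | cons p c ih =>
    rw [List.map_cons, List.sum_cons, ← ih]
    simp only [pgd_cmb, Fin.sum_univ_five]
    push_cast
    ring

/-- the point of a vertex -/
noncomputable def pgd_pt (e : ℕ × List ℤ) : Fin 5 → ℝ := fun i =>
  -((e.2.getD i.1 0 : ℤ) : ℝ) / ((e.2.getD 5 0 : ℤ) : ℝ)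

theorem pgd_ver_spec (e : ℕ × List ℤ) (he : e ∈ pgdF) (v : Fin 36) :
    (e.1.testBit v.1 = true → polY.l v (pgd_pt e) = 0) ∧
    (e.1.testBit v.1 = false → 0 < polY.l v (pgd_pt e)) := by
  have h1 := List.all_eq_true.1 pgd_ver_ok e he
  rw [pgd_ver, Bool.and_eq_true, decide_eq_true_eq] at h1
  obtain ⟨hq, h2⟩ := h1
  have hlen : v.1 < nrmL.length := by rw [pgd_nrm_len]; exact v.2
  have h3 := pgd_chk_spec _ _ h2 v.1 (by rw [List.length_map]; exact hlen)
  have h4 : (nrmL.map fun r => pgd_dot r e.2).getD v.1 0 = pgd_dot (nrmL.getD v.1 []) e.2 := by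
    rw [List.getD_eq_getElem _ _ (by rw [List.length_map]; exact hlen), List.getElem_map,
      List.getD_eq_getElem _ _ hlen]
  rw [h4] at h3
  have hq' : (0 : ℝ) < ((e.2.getD 5 0 : ℤ) : ℝ) := by exact_mod_cast hq
  have h5 : ((e.2.getD 5 0 : ℤ) : ℝ) * polY.l v (pgd_pt e) =
      ((pgd_dot (nrmL.getD v.1 []) e.2 : ℤ) : ℝ) := by
    rw [pgd_dot_eq 6 _ _ (pgd_row_len _ (by
      rw [List.getD_eq_getElem _ _ hlen]; exact List.getElem_mem _)), pgd_l]
    have key : ∀ q n0 n1 n2 n3 n4 n5 p0 p1 p2 p3 p4 : ℝ, 0 < q →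
        q * (-(n0 * (-p0 / q) + n1 * (-p1 / q) + n2 * (-p2 / q) + n3 * (-p3 / q) +
          n4 * (-p4 / q)) + n5) = 0 + n0 * p0 + n1 * p1 + n2 * p2 + n3 * p3 + n4 * p4 + n5 * q := by
      intro q n0 n1 n2 n3 n4 n5 p0 p1 p2 p3 p4 hq
      field_simp
      ring
    simp only [Finset.sum_range_succ, Finset.sum_range_zero, Fin.sum_univ_five, pgd_pt, pgd_nv]
    push_cast
    exact key _ _ _ _ _ _ _ _ _ _ _ _ hq'
  constructor
  · intro h
    rw [h3.1 h, Int.cast_zero, mul_eq_zero] at h5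
    exact h5.resolve_left hq'.ne'
  · intro h
    have h6 : (0 : ℝ) < ((pgd_dot (nrmL.getD v.1 []) e.2 : ℤ) : ℝ) := by exact_mod_cast h3.2 h
    rw [← h5] at h6
    exact (mul_pos_iff_of_pos_left hq').1 h6

theorem pgd_pt_mem (e : ℕ × List ℤ) (he : e ∈ pgdF) : pgd_pt e ∈ polY.cham := by
  intro v
  cases h : e.1.testBit v.1 with
  | false => exact ((pgd_ver_spec e he v).2 h).le
  | true => exact ((pgd_ver_spec e he v).1 h).ge

/-- facets of non-edges do not meet -/
theorem pgd_nonmeet (u v : Fin 36) (huv : u < v) (hn : ¬ adjY u v) (x : Fin 5 → ℝ)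
    (hx : x ∈ polY.cham) (hu : polY.l u x = 0) (hv : polY.l v x = 0) : False := by
  have h1 := List.all_eq_true.1 (List.all_eq_true.1 pgd_non_ok u.1 (List.mem_range.2 u.2)) v.1
    (List.mem_range.2 v.2)
  rw [pgd_non, Bool.or_eq_true, Bool.or_eq_true, decide_eq_true_eq] at h1
  rcases h1 with (h1 | h1) | h1
  · exact absurd h1 (not_le.2 huv)
  · exact hn h1
  set c := pgd_cN u.1 v.1 with hc
  simp only [pgd_crt, Bool.and_eq_true, List.all_eq_true, beq_iff_eq, decide_eq_true_eq,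
    Bool.or_eq_true] at h1
  obtain ⟨⟨⟨⟨⟨⟨h1, h20⟩, h21⟩, h22⟩, h23⟩, h24⟩, h25⟩ := h1
  have h3 := pgd_cmb_val c x
  have h4 : -(∑ i : Fin 5, (pgd_cmb c i.1 : ℝ) * x i) + (pgd_cmb c 5 : ℝ) < 0 := by
    rw [Fin.sum_univ_five]
    have e0 : pgd_cmb c (0 : Fin 5).1 = 0 := h20
    have e1 : pgd_cmb c (1 : Fin 5).1 = 0 := h21
    have e2 : pgd_cmb c (2 : Fin 5).1 = 0 := h22
    have e3 : pgd_cmb c (3 : Fin 5).1 = 0 := h23
    have e4 : pgd_cmb c (4 : Fin 5).1 = 0 := h24
    have e5 : (pgd_cmb c 5 : ℝ) < 0 := by exact_mod_cast h25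
    rw [e0, e1, e2, e3, e4]
    simpa using e5
  rw [h3] at h4
  refine absurd h4 (not_lt.2 (List.sum_nonneg ?_))
  intro y hy
  obtain ⟨p, hp, rfl⟩ := List.mem_map.1 hy
  obtain ⟨h5, h6⟩ := h1 p hp
  have h7 := pgd_l ⟨p.1, h5⟩ x
  rw [show (-(∑ i : Fin 5, (pgd_nv p.1 i.1 : ℝ) * x i) + (pgd_nv p.1 5 : ℝ)) =
    polY.l ⟨p.1, h5⟩ x from h7.symm]
  rcases h6 with (h6 | h6) | h6
  · have : (⟨p.1, h5⟩ : Fin 36) = u := Fin.ext h6
    rw [this, hu, mul_zero]
  · have : (⟨p.1, h5⟩ : Fin 36) = v := Fin.ext h6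
    rw [this, hv, mul_zero]
  · exact mul_nonneg (by exact_mod_cast h6) (hx _)

theorem pgd_adj_of (u v : Fin 36) (huv : u ≠ v) (x : Fin 5 → ℝ)
    (hx : x ∈ polY.cham) (hu : polY.l u x = 0) (hv : polY.l v x = 0) : adjY u v := by
  by_contra h
  rcases lt_or_gt_of_ne huv with h1 | h1
  · exact pgd_nonmeet u v h1 h x hx hu hv
  · exact pgd_nonmeet v u h1 (fun h' => h (adjY_symm _ _ h')) x hx hv hu

theorem pgd_cov_spec : ∀ (k cand : ℕ) (fs : List ℕ), pgd_cov k cand fs = true →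
    ∀ σ : Set ℕ, (∀ v ∈ σ, v < k → cand.testBit v = true) →
    (∀ u ∈ σ, ∀ v ∈ σ, u < k → v < u → (msk u).testBit v = true) →
    ∃ F ∈ fs, ∀ v ∈ σ, v < k → F.testBit v = true := by
  intro k
  induction k with
  | zero =>
    intro cand fs h σ _ _
    cases fs with
    | nil => simp [pgd_cov] at h
    | cons F fs => exact ⟨F, List.mem_cons_self, fun v _ hv => absurd hv (Nat.not_lt_zero v)⟩
  | succ k ih =>
    intro cand fs h σ h1 h2
    rw [pgd_cov, Bool.and_eq_true, Bool.or_eq_true] at h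
    obtain ⟨h3, h4⟩ := h
    by_cases hk : k ∈ σ
    · have h5 : cand.testBit k = true := h1 k hk (Nat.lt_succ_self k)
      rw [h5] at h4
      have h6 := h4.resolve_left (by decide)
      obtain ⟨F, hF, hF'⟩ := ih _ _ h6 σ (fun v hv hvk => by
        rw [Nat.testBit_and, h1 v hv (by omega), h2 k hk v hv (by omega) hvk]
        rfl) (fun u hu v hv huk hvu => h2 u hu v hv (by omega) hvu)
      rw [List.mem_filter] at hF
      refine ⟨F, hF.1, fun v hv hvk => ?_⟩
      rcases Nat.lt_succ_iff_lt_or_eq.1 hvk with h7 | h7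
      · exact hF' v hv h7
      · rw [h7]
        exact hF.2
    · obtain ⟨F, hF, hF'⟩ := ih _ _ h3 σ (fun v hv hvk => h1 v hv (by omega))
        (fun u hu v hv huk hvu => h2 u hu v hv (by omega) hvu)
      refine ⟨F, hF, fun v hv hvk => ?_⟩
      rcases Nat.lt_succ_iff_lt_or_eq.1 hvk with h7 | h7
      · exact hF' v hv h7
      · rw [h7] at hv
        exact absurd hv hk

/-- every clique lies in a facet -/
theorem pgd_clique (σ : Set (Fin 36)) (h : ∀ u ∈ σ, ∀ v ∈ σ, u ≠ v → adjY u v) :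
    ∃ e ∈ pgdF, ∀ v ∈ σ, e.1.testBit v.1 = true := by
  obtain ⟨F, hF, hF'⟩ := pgd_cov_spec 36 _ _ pgd_cov_ok (Fin.val '' σ) (by
    rintro _ ⟨v, _, rfl⟩ hv
    rw [Nat.testBit_two_pow_sub_one]
    exact decide_eq_true hv) (by
    rintro _ ⟨u, hu, rfl⟩ _ ⟨v, hv, rfl⟩ _ hvu
    exact h u hu v hv (fun h' => by rw [h'] at hvu; exact absurd hvu (lt_irrefl _)))
  obtain ⟨e, he, rfl⟩ := List.mem_map.1 hF
  exact ⟨e, he, fun v hv => hF' v.1 ⟨v, hv, rfl⟩ v.2⟩

theorem pgd_face (σ : Set (Fin 36)) (h : ∀ u ∈ σ, ∀ v ∈ σ, u ≠ v → adjY u v) :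
    polY.Face σ := by
  obtain ⟨e, he, h1⟩ := pgd_clique σ h
  exact ⟨pgd_pt e, pgd_pt_mem e he, fun v hv => (pgd_ver_spec e he v).1 (h1 v hv)⟩

theorem pgd_adj : polY.adj = adjY := by
  funext u v
  refine propext ⟨?_, fun h => ?_⟩
  · rintro ⟨h1, x, hx, h2⟩
    exact pgd_adj_of u v h1 x hx (h2 (by simp)) (h2 (by simp))
  · refine ⟨fun h' => ?_, pgd_face {u, v} ?_⟩
    · rw [h'] at h
      exact adjY_irrefl v h
    · intro a ha b hb hab
      rcases ha with rfl | ha
      · rcases hb with rfl | hb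
        · exact absurd rfl hab
        · rw [Set.mem_singleton_iff] at hb
          rw [hb]
          exact h
      · rw [Set.mem_singleton_iff] at ha
        rcases hb with rfl | hb
        · rw [ha]
          exact adjY_symm _ _ h
        · rw [Set.mem_singleton_iff] at hb
          rw [ha, hb] at hab
          exact absurd rfl hab

/-- a facet has a neighbour for each of its vertices -/
theorem pgd_nb_spec (e : ℕ × List ℤ) (he : e ∈ pgdF) (v : Fin 36) (hv : e.1.testBit v.1 = true) :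
    ∃ e' ∈ pgdF, e'.1.testBit v.1 = false ∧
      ∀ u : Fin 36, u ≠ v → e.1.testBit u.1 = true → e'.1.testBit u.1 = true := by
  have h1 := List.all_eq_true.1 pgd_nb_ok e.1 (List.mem_map.2 ⟨e, he, rfl⟩)
  have h2 := List.all_eq_true.1 h1 v.1 (List.mem_range.2 v.2)
  rw [hv, Bool.or_eq_true] at h2
  have h3 := h2.resolve_left (by decide)
  rw [List.any_eq_true] at h3
  obtain ⟨F', hF', h4⟩ := h3
  obtain ⟨e', he', rfl⟩ := List.mem_map.1 hF'
  rw [beq_iff_eq] at h4
  refine ⟨e', he', ?_, fun u huv hu => ?_⟩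
  · have h5 := congrArg (fun t => t.testBit v.1) h4
    simp only [Nat.testBit_and, Nat.testBit_xor, hv, Nat.one_shiftLeft, Nat.testBit_two_pow_self,
      Bool.and_true] at h5
    simpa using h5
  · have h5 := congrArg (fun t => t.testBit u.1) h4
    simp only [Nat.testBit_and, Nat.testBit_xor, hu, Nat.one_shiftLeft, Bool.and_true] at h5
    rw [Nat.testBit_two_pow_of_ne (fun h => huv (Fin.ext h.symm))] at h5
    simpa using h5

theorem pgd_simple (x : Fin 5 → ℝ) (hx : x ∈ polY.cham) :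
    LinearIndependent ℝ (fun v : polY.sig x => polY.a v) := by
  classical
  have hcl : ∀ u ∈ polY.sig x, ∀ v ∈ polY.sig x, u ≠ v → adjY u v := fun u hu v hv huv =>
    pgd_adj_of u v huv x hx hu hv
  obtain ⟨e, he, h1⟩ := pgd_clique _ hcl
  rw [Fintype.linearIndependent_iff]
  intro g hg v
  obtain ⟨e', he', h2, h3⟩ := pgd_nb_spec e he v.1 (h1 v.1 v.2)
  have ha : ∀ u : Fin 36, polY.a u (pgd_pt e' - pgd_pt e) =
      polY.l u (pgd_pt e') - polY.l u (pgd_pt e) := by
    intro u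
    rw [map_sub]
    unfold SPoly.l
    ring
  have h4 := congrArg (fun t : (Fin 5 → ℝ) →ₗ[ℝ] ℝ => t (pgd_pt e' - pgd_pt e)) hg
  simp only [LinearMap.sum_apply, LinearMap.smul_apply, LinearMap.zero_apply, smul_eq_mul] at h4
  rw [Finset.sum_eq_single v] at h4
  · rw [ha, (pgd_ver_spec e he v.1).1 (h1 v.1 v.2), sub_zero] at h4
    exact (mul_eq_zero.1 h4).resolve_right ((pgd_ver_spec e' he' v.1).2 h2).ne'
  · intro u _ huv
    have huv' : u.1 ≠ v.1 := fun h => huv (Subtype.ext h)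
    rw [ha, (pgd_ver_spec e he u.1).1 (h1 u.1 u.2),
      (pgd_ver_spec e' he' u.1).1 (h3 u.1 huv' (h1 u.1 u.2)), sub_zero, mul_zero]
  · intro h
    exact absurd (Finset.mem_univ v) h

theorem pgd_bnd_spec (c : List (ℕ × ℤ)) (i : Fin 5) (s : Bool) (h : pgd_bnd c i.1 s = true)
    (x : Fin 5 → ℝ) (hx : x ∈ polY.cham) : if s = true then x i ≤ 3 else - 3 ≤ x i := by
  simp only [pgd_bnd, Bool.and_eq_true, List.all_eq_true, decide_eq_true_eq] at h
  obtain ⟨h1, h2⟩ := h
  have h3 := pgd_cmb_val c x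
  have h4 : 0 ≤ -(∑ i : Fin 5, (pgd_cmb c i.1 : ℝ) * x i) + (pgd_cmb c 5 : ℝ) := by
    rw [h3]
    refine List.sum_nonneg ?_
    intro y hy
    obtain ⟨p, hp, rfl⟩ := List.mem_map.1 hy
    obtain ⟨h5, h6⟩ := h1 p hp
    have h7 := pgd_l ⟨p.1, h5⟩ x
    rw [show (-(∑ i : Fin 5, (pgd_nv p.1 i.1 : ℝ) * x i) + (pgd_nv p.1 5 : ℝ)) =
      polY.l ⟨p.1, h5⟩ x from h7.symm]
    exact mul_nonneg (by exact_mod_cast h6) (hx _)
  have h5 : (∑ j : Fin 5, (pgd_cmb c j.1 : ℝ) * x j) = (pgd_cmb c i.1 : ℝ) * x i := by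
    refine Finset.sum_eq_single i (fun j _ hj => ?_) (fun h => absurd (Finset.mem_univ i) h)
    have h6 := h2 j.1 (List.mem_range.2 j.2)
    have h7 : ¬ ((j.1 == i.1) = true) := by
      rw [beq_iff_eq]
      exact fun h => hj (Fin.ext h)
    rw [if_neg h7, beq_iff_eq] at h6
    rw [h6]
    simp
  rw [h5] at h4
  have h6 := h2 i.1 (List.mem_range.2 i.2)
  rw [if_pos (by simp)] at h6
  cases s with
  | true =>
    simp only [if_true, Bool.and_eq_true, decide_eq_true_eq] at h6 ⊢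
    have h7 : (0 : ℝ) < (pgd_cmb c i.1 : ℝ) := by exact_mod_cast h6.1
    have h8 : (pgd_cmb c 5 : ℝ) ≤ 3 * (pgd_cmb c i.1 : ℝ) := by exact_mod_cast h6.2
    nlinarith
  | false =>
    simp only [Bool.false_eq_true, if_false, Bool.and_eq_true, decide_eq_true_eq] at h6 ⊢
    have h7 : (pgd_cmb c i.1 : ℝ) < 0 := by exact_mod_cast h6.1
    have h8 : (pgd_cmb c 5 : ℝ) ≤ 3 * (-(pgd_cmb c i.1 : ℝ)) := by exact_mod_cast h6.2
    nlinarith

theorem pgd_compact : IsCompact polY.cham := by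
  refine Metric.isCompact_of_isClosed_isBounded ?_ ?_
  · have : polY.cham = ⋂ v : Fin 36, {x | 0 ≤ polY.l v x} := by
      ext x
      simp [SPoly.cham]
    rw [this]
    refine isClosed_iInter fun v => ?_
    refine isClosed_le continuous_const ?_
    unfold SPoly.l
    exact (LinearMap.continuous_of_finiteDimensional _).add continuous_const
  · refine (Metric.isBounded_Icc (fun _ : Fin 5 => (-3 : ℝ)) (fun _ => 3)).subset ?_
    intro x hx
    have h := fun i : Fin 5 => List.all_eq_true.1 pgd_bnd_ok i.1 (List.mem_range.2 i.2)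
    refine ⟨fun i => ?_, fun i => ?_⟩
    · have h1 := h i
      rw [Bool.and_eq_true] at h1
      simpa using pgd_bnd_spec _ i false h1.2 x hx
    · have h1 := h i
      rw [Bool.and_eq_true] at h1
      simpa using pgd_bnd_spec _ i true h1.1 x hx

theorem pgd : PGDStmt := by
  refine ⟨⟨pgd_compact, pgd_simple, fun σ h => ?_⟩, pgd_adj⟩
  refine pgd_face σ fun u hu v hv huv => ?_
  have := h u hu v hv huv
  rwa [pgd_adj] at this

end Pool.LU.YP
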